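import Mathlib

set_option autoImplicit false

namespace Pool.Agent.Results.MP_308823_co.Gamma

open Pointwise Finset

/-- The cyclic block polytope, blocks indexed by `ZMod m`. -/
def C (m a : ℕ) : Set (ZMod m → Fin a → ℝ) :=
  {x | (∀ i j, 0 ≤ x i j) ∧ ∀ i, ∑ j, x i j + ∑ j, x (i + 1) j ≤ 1}

/-- Number of lattice points in the `q`-th dilate. -/
noncomputable def L (m a q : ℕ) : ℕ :=
  {x : ZMod m → Fin a → ℤ | (fun i j => (x i j : ℝ)) ∈ (q : ℝ) • C m a}.ncard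

/-- `γ`-nonnegativity with respect to the degree of `h`. -/
def GammaNonneg (h : Polynomial ℝ) : Prop :=
  ∃ γ : ℕ → ℝ, (∀ j, 0 ≤ γ j) ∧ h = ∑ j ∈ range (h.natDegree / 2 + 1),
    Polynomial.C (γ j) * Polynomial.X ^ j * (1 + Polynomial.X) ^ (h.natDegree - 2 * j)

def S (q : ℕ) : Finset (ℕ × ℕ × ℕ) := (range (q + 1) ×ˢ range (q + 1) ×ˢ range (q + 1)).filter
  fun p => p.1 + p.2.1 ≤ q ∧ p.2.1 + p.2.2 ≤ q ∧ p.2.2 + p.1 ≤ q

theorem mS (q : ℕ) (p : ℕ × ℕ × ℕ) :
    p ∈ S q ↔ p.1 + p.2.1 ≤ q ∧ p.2.1 + p.2.2 ≤ q ∧ p.2.2 + p.1 ≤ q := by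
  simp only [S, mem_filter, mem_product, mem_range]
  omega

def T (q : ℕ) : Finset (ℕ × ℕ) := (range (q + 1) ×ˢ range (q + 1)).filter fun p => p.1 + p.2 ≤ q

theorem mT (q : ℕ) (p : ℕ × ℕ) : p ∈ T q ↔ p.1 + p.2 ≤ q := by
  simp only [T, mem_filter, mem_product, mem_range]
  omega

theorem cT (q : ℕ) : #(T q) = (2 + q).choose 2 := by
  induction q with
  | zero => rfl
  | succ q ih =>
    have : T (q + 1) = T q ∪ Finset.HasAntidiagonal.antidiagonal (q + 1) := by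
      ext p
      simp only [mem_union, mT, Finset.HasAntidiagonal.mem_antidiagonal]
      omega
    rw [this, card_union_of_disjoint, ih, Nat.card_antidiagonal,
      show (2 + (q + 1)).choose 2 = (2 + q).choose 1 + (2 + q).choose 2 from rfl,
      Nat.choose_one_right]
    · omega
    · rw [disjoint_left]
      intro p
      simp only [mT, Finset.HasAntidiagonal.mem_antidiagonal]
      omega

theorem rec2 (q : ℕ) : #(S (q + 2)) = #(S q) + #(T (q + 2)) + #(T (q + 1)) + #(T q) := by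
  have e1 : #{p ∈ S (q + 2) | p.1 = 0} = #(T (q + 2)) :=
    card_nbij' (fun p => p.2) (fun p => (0, p))
      (fun p h => by simp only [mem_coe, mem_filter, mS, mT, and_true, true_and] at *; omega)
      (fun p h => by simp only [mem_coe, mem_filter, mS, mT, and_true, true_and] at *; omega)
      (fun p h => by
        simp only [mem_coe, mem_filter] at h
        exact Prod.ext h.2.symm rfl) fun p _ => rfl
  have e2 : #{p ∈ {p ∈ S (q + 2) | ¬ p.1 = 0} | p.2.1 = 0} = #(T (q + 1)) :=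
    card_nbij' (fun p => (p.1 - 1, p.2.2)) (fun p => (p.1 + 1, 0, p.2))
      (fun p h => by simp only [mem_coe, mem_filter, mS, mT, and_true, true_and] at *; omega)
      (fun p h => by simp only [mem_coe, mem_filter, mS, mT, and_true, true_and] at *; omega)
      (fun p h => by
        simp only [mem_coe, mem_filter, Prod.ext_iff, and_true, true_and] at *
        omega) fun p _ => rfl
  have e3 : #{p ∈ {p ∈ {p ∈ S (q + 2) | ¬ p.1 = 0} | ¬ p.2.1 = 0} | p.2.2 = 0} = #(T q) :=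
    card_nbij' (fun p => (p.1 - 1, p.2.1 - 1)) (fun p => (p.1 + 1, p.2 + 1, 0))
      (fun p h => by simp only [mem_coe, mem_filter, mS, mT, and_true, true_and] at *; omega)
      (fun p h => by simp only [mem_coe, mem_filter, mS, mT, and_true, true_and] at *; omega)
      (fun p h => by
        simp only [mem_coe, mem_filter, Prod.ext_iff, and_true, true_and] at *
        omega) fun p _ => rfl
  have e4 : #{p ∈ {p ∈ {p ∈ S (q + 2) | ¬ p.1 = 0} | ¬ p.2.1 = 0} | ¬ p.2.2 = 0} = #(S q) :=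
    card_nbij' (fun p => (p.1 - 1, p.2.1 - 1, p.2.2 - 1)) (fun p => (p.1 + 1, p.2.1 + 1, p.2.2 + 1))
      (fun p h => by simp only [mem_coe, mem_filter, mS] at *; omega)
      (fun p h => by simp only [mem_coe, mem_filter, mS] at *; omega)
      (fun p h => by
        simp only [mem_coe, mem_filter, Prod.ext_iff, and_true, true_and] at *
        omega) fun p _ => rfl
  rw [← e1, ← e2, ← e3, ← e4, ← card_filter_add_card_filter_not (s := S (q + 2)) fun p => p.1 = 0,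
    ← card_filter_add_card_filter_not (s := {p ∈ S (q + 2) | ¬ p.1 = 0}) fun p => p.2.1 = 0,
    ← card_filter_add_card_filter_not (s := {p ∈ {p ∈ S (q + 2) | ¬ p.1 = 0} | ¬ p.2.1 = 0})
      fun p => p.2.2 = 0]
  omega

theorem memC (t : ℝ) (ht : 0 ≤ t) (v : ZMod 3 → Fin 1 → ℝ) : v ∈ t • C 3 1 ↔
    (∀ i, 0 ≤ v i 0) ∧ ∀ i, v i 0 + v (i + 1) 0 ≤ t := by
  simp only [C, Fin.sum_univ_one, Fin.forall_fin_one]
  constructor
  · rintro ⟨w, ⟨h1, h2⟩, rfl⟩
    exact ⟨fun a => mul_nonneg ht (h1 a), fun a =>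
      (mul_add t _ _).symm.trans_le (mul_le_of_le_one_right ht (h2 a))⟩
  · rintro ⟨h1, h2⟩
    refine ⟨fun i j => v i j / t, ⟨fun a => div_nonneg (h1 a) ht, fun a =>
      (add_div _ _ t).symm.trans_le (div_le_one_of_le₀ (h2 a) ht)⟩, ?_⟩
    funext i j
    rw [Subsingleton.elim j 0]
    rcases ht.eq_or_lt with rfl | ht
    · exact (zero_mul _).trans (by linarith [h1 i, h2 i, h1 (i + 1)])
    · exact mul_div_cancel₀ _ ht.ne'

theorem all3 (P : ZMod 3 → Prop) : (∀ i, P i) ↔ P 0 ∧ P 1 ∧ P 2 :=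
  ⟨fun h => ⟨h 0, h 1, h 2⟩, fun h i => by
    fin_cases i
    · exact h.1
    · exact h.2.1
    · exact h.2.2⟩

theorem hL (q : ℕ) : L 3 1 q = #(S q) := by
  rw [L, ← Set.ncard_coe_finset]
  have e : ∀ x : ZMod 3 → Fin 1 → ℤ, (fun i j => (x i j : ℝ)) ∈ (q : ℝ) • C 3 1 ↔
      (0 ≤ x 0 0 ∧ 0 ≤ x 1 0 ∧ 0 ≤ x 2 0) ∧
        x 0 0 + x 1 0 ≤ q ∧ x 1 0 + x 2 0 ≤ q ∧ x 2 0 + x 0 0 ≤ q := fun x => by
    rw [memC _ (Nat.cast_nonneg q), all3, all3]
    norm_cast
  simp only [e]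
  refine Set.ncard_congr (fun x _ => ((x 0 0).toNat, (x 1 0).toNat, (x 2 0).toNat)) ?_ ?_ ?_
  · intro x h
    simp only [mem_coe, mS, Set.mem_ofPred_eq] at *
    omega
  · intro x y h1 h2 h
    simp only [Set.mem_ofPred_eq, Prod.ext_iff] at *
    funext i j
    rw [Subsingleton.elim j 0]
    revert i
    rw [all3]
    omega
  · rintro ⟨a, b, c⟩ h
    simp only [mem_coe, mS] at h
    refine ⟨fun i _ => ![(a : ℤ), b, c] i, ?_, rfl⟩
    change (0 ≤ (a : ℤ) ∧ 0 ≤ (b : ℤ) ∧ 0 ≤ (c : ℤ)) ∧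
      (a : ℤ) + b ≤ q ∧ (b : ℤ) + c ≤ q ∧ (c : ℤ) + a ≤ q
    omega

open PowerSeries in
theorem series : (PowerSeries.mk fun q => (L 3 1 q : ℝ)) * (1 - X ^ 2) ^ 4 =
    (1 + X) ^ 3 * (1 + X + X ^ 2) := by
  have h1 : (PowerSeries.mk fun q => (L 3 1 q : ℝ)) * (1 - X ^ 2) =
      (PowerSeries.mk fun q => (#(T q) : ℝ)) * (1 + X + X ^ 2) := by
    ext n
    simp only [hL, mul_sub, mul_add, mul_one, map_sub, map_add, coeff_mk]
    rcases n with _ | _ | n
    · simp [coeff_mul_X_pow']; rfl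
    · simp only [coeff_succ_mul_X, coeff_mul_X_pow', coeff_mk]
      norm_num
      rw [show #(S 1) = 4 from rfl, show #(T 1) = 3 from rfl, show #(T 0) = 1 from rfl]
      norm_num
    · rw [coeff_succ_mul_X, show n + 1 + 1 = n + 2 from rfl, coeff_mul_X_pow, coeff_mul_X_pow]
      simp only [coeff_mk, rec2]
      push_cast
      ring
  have h2 : (PowerSeries.mk fun q => (#(T q) : ℝ)) * (1 - X) ^ 3 = 1 := by
    simp only [cT]
    rw [← mk_one_pow_eq_mk_choose_add, ← mul_pow, mk_one_mul_one_sub_eq_one, one_pow]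
  linear_combination (1 - X ^ 2) ^ 3 * h1 + (1 + X) ^ 3 * (1 + X + X ^ 2) * h2

theorem result : ∃ a m : ℕ, 1 ≤ a ∧ 3 ≤ m ∧ Odd m ∧ ∃ h : Polynomial ℝ,
    (PowerSeries.mk fun q => (L m a q : ℝ)) * (1 - PowerSeries.X ^ 2) ^ (a * m + 1) =
      (h : PowerSeries ℝ) ∧
      ¬ GammaNonneg h := by
  refine ⟨1, 3, le_rfl, le_rfl, by decide,
    (1 + Polynomial.X) ^ 3 * (1 + Polynomial.X + Polynomial.X ^ 2), by simp [series], ?_⟩
  rintro ⟨γ, h0, h⟩
  have hd : ((1 + Polynomial.X) ^ 3 * (1 + Polynomial.X + Polynomial.X ^ 2) :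
      Polynomial ℝ).natDegree = 5 := by compute_degree!
  rw [hd] at h
  have a := congrArg (Polynomial.eval 0) h
  have b := congrArg (Polynomial.eval 1) h
  simp [sum_range_succ] at a b
  linarith [h0 1, h0 2]

end Pool.Agent.Results.MP_308823_co.Gamma
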